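import Pool.Agent.COV.StmtsA

/-!
# COV, row AR4: the Legendre form
-/

set_option autoImplicit false

namespace Pool.Agent.COV.H52

open Polynomial Pool.Agent.COV

theorem deg_aux {k : Type} [Field k] (P Q : k[X]) (α a : k) :
    (C α * (P - C a * Q)).natDegree ≤ max P.natDegree Q.natDegree := by
  refine (natDegree_C_mul_le _ _).trans ?_
  refine (natDegree_sub_le _ _).trans ?_
  exact max_le_max le_rfl (natDegree_C_mul_le _ _)

theorem ar4 : Ar4Stmt := by
  intro k _ _ _ f P Q V₁ a b c d hab hac had hbc hbd hcd hW hf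
  have ab : b - a ≠ 0 := sub_ne_zero.2 (Ne.symm hab)
  have ac : a - c ≠ 0 := sub_ne_zero.2 hac
  have ad : a - d ≠ 0 := sub_ne_zero.2 had
  have bc : b - c ≠ 0 := sub_ne_zero.2 hbc
  have bd : b - d ≠ 0 := sub_ne_zero.2 hbd
  have cd : c - d ≠ 0 := sub_ne_zero.2 hcd
  obtain ⟨g, hg⟩ : ∃ g : k, g * (b - d) = 1 := ⟨(b - d)⁻¹, inv_mul_cancel₀ bd⟩
  obtain ⟨h, hh⟩ : ∃ h : k, h * (a - c) = 1 := ⟨(a - c)⁻¹, inv_mul_cancel₀ ac⟩
  have g0 : g ≠ 0 := by rintro rfl; simp at hg
  have h0 : h ≠ 0 := by rintro rfl; simp at hh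
  obtain ⟨s, hs⟩ : ∃ s : k, s ^ 2 = (b - c) * (a - c) * (b - a) * ((b - c) * (b - a) * g) :=
    IsAlgClosed.exists_pow_nat_eq _ (by norm_num)
  obtain ⟨j, hj⟩ : ∃ j : k, j = (b - c) * (a - d) * g * h := ⟨_, rfl⟩
  have hj1 : j * (a - c) = (b - c) * (a - d) * g := by
    rw [hj]
    linear_combination (b - c) * (a - d) * g * hh
  have hj0 : j ≠ 0 := by
    rw [hj]
    exact mul_ne_zero (mul_ne_zero (mul_ne_zero bc ad) g0) h0
  have hjn : j ≠ 1 := by
    intro h1
    rw [h1] at hj1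
    have h2 : (a - c) * (b - d) = (b - c) * (a - d) := by
      linear_combination (b - d) * hj1 + (b - c) * (a - d) * hg
    have h3 : (b - a) * (c - d) = 0 := by linear_combination (-1 : k) * h2
    exact (mul_ne_zero ab cd) h3
  have e1 : C (b - c) * (P - C a * Q) - C (a - c) * (P - C b * Q) =
      C (b - a) * (P - C c * Q) := by
    simp only [C_sub]
    ring
  have e2 : C (b - c) * (P - C a * Q) - C j * (C (a - c) * (P - C b * Q)) =
      C ((b - c) * (b - a) * g) * (P - C d * Q) := by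
    have h1 : b - c = (b - c) * (b - d) * g := by linear_combination -(b - c) * hg
    have h2 : C j * (C (a - c) * (P - C b * Q)) = C ((b - c) * (a - d) * g) * (P - C b * Q) := by
      rw [← mul_assoc, ← C_mul, hj1]
    have h3 : C (b - c) * (P - C a * Q) = C ((b - c) * (b - d) * g) * (P - C a * Q) := by
      rw [← h1]
    rw [h2, h3]
    simp only [C_mul, C_sub]
    ring
  have e3 : wr (C (b - c) * (P - C a * Q)) (C (a - c) * (P - C b * Q)) =
      C (-((b - c) * (a - c) * (b - a))) * wr P Q := by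
    unfold wr
    simp only [derivative_mul, derivative_C, derivative_sub, C_mul, C_sub, C_neg, zero_mul, zero_add]
    ring
  refine ⟨j, C (b - c) * (P - C a * Q), C (a - c) * (P - C b * Q), C s * V₁, hj0, hjn,
    deg_aux _ _ _ _, deg_aux _ _ _ _, ?_, ?_⟩
  · rw [e3]
    refine mul_ne_zero ?_ hW
    rw [Ne, C_eq_zero]
    exact neg_ne_zero.2 (mul_ne_zero (mul_ne_zero bc ac) ab)
  · rw [e1, e2]
    have e4 : f * (C s * V₁) ^ 2 = C (s ^ 2) * (f * V₁ ^ 2) := by
      rw [C_pow]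
      ring
    rw [e4, hs, hf]
    simp only [C_mul]
    ring

end Pool.Agent.COV.H52
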